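import Pool.Agent.Helper89.TT.Basic

set_option autoImplicit false

open Finset

namespace Pool.Agent.Helper89.TT

theorem cc_size (j N : ℕ) (hN : 1 ≤ N) :
    4 * (j * N ^ j) ^ 6 ≤ (4 * j ^ 6 + 6 * j + 2) * N ^ (4 * j ^ 6 + 6 * j + 2) := by
  calc 4 * (j * N ^ j) ^ 6 = (4 * j ^ 6) * N ^ (j * 6) := by
        rw [mul_pow, ← pow_mul]; ring
    _ ≤ (4 * j ^ 6 + 6 * j + 2) * N ^ (4 * j ^ 6 + 6 * j + 2) := by
        apply Nat.mul_le_mul
        · have := Nat.zero_le j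
          linarith
        · apply Nat.pow_le_pow_right hN
          have := Nat.zero_le (j ^ 6)
          linarith

theorem cc_size2 (j N : ℕ) (hN : 1 ≤ N) :
    2 * (j * N ^ j) ≤ (4 * j ^ 6 + 6 * j + 2) * N ^ (4 * j ^ 6 + 6 * j + 2) := by
  calc 2 * (j * N ^ j) = (2 * j) * N ^ j := by ring
    _ ≤ (4 * j ^ 6 + 6 * j + 2) * N ^ (4 * j ^ 6 + 6 * j + 2) := by
        apply Nat.mul_le_mul
        · have := Nat.zero_le (j ^ 6)
          linarith
        · apply Nat.pow_le_pow_right hN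
          have := Nat.zero_le (j ^ 6)
          linarith

theorem cc_choose {S p p' q q' x x' : ℕ} (hx' : 0 < x') (hp' : 0 < p')
    (hlt : p' * x' < p * x) (h1 : SS S (p * x + p' * x')) (h2 : SS S (p * x - p' * x'))
    (h3 : SS S (q * x + q' * x')) :
    ∃ s P s' Q s3 y : ℕ, 1 ≤ s ∧ s ≤ S ∧ 1 ≤ s' ∧ s' ≤ S ∧ 1 ≤ s3 ∧ s3 ≤ S ∧ 0 < P ∧ 0 < Q ∧
      p * x + p' * x' = s * P ^ 2 ∧ p * x = p' * x' + s' * Q ^ 2 ∧ q * x + q' * x' = s3 * y ^ 2 := by
  obtain ⟨s, P, hs1, hs2, hP⟩ := h1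
  obtain ⟨s', Q, hs1', hs2', hQ⟩ := h2
  obtain ⟨s3, y, hs13, hs23, hy⟩ := h3
  refine ⟨s, P, s', Q, s3, y, hs1, hs2, hs1', hs2', hs13, hs23, ?_, ?_, hP, ?_, hy⟩
  · rcases Nat.eq_zero_or_pos P with h | h
    · subst h
      have : 0 < p' * x' := Nat.mul_pos hp' hx'
      simp at hP
      omega
    · exact h
  · rcases Nat.eq_zero_or_pos Q with h | h
    · subst h
      simp at hQ
      omega
    · exact h
  · omega

theorem st_CC (hCON : ST_CON) : ST_CC := by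
  intro ε hε j
  obtain ⟨D, hD1, hD⟩ := hCON ε hε (4 * j ^ 6 + 6 * j + 2)
  refine ⟨D, hD1, ?_⟩
  intro N S W p p' q q' hN hS hSj hWj hp hpj hp' hpj' hq hqj hq' hqj' hne Z hZ
  classical
  have hex : ∀ z : ℕ × ℕ, ∃ s P s' Q s3 y : ℕ, z ∈ Z →
      (1 ≤ s ∧ s ≤ S ∧ 1 ≤ s' ∧ s' ≤ S ∧ 1 ≤ s3 ∧ s3 ≤ S ∧ 0 < P ∧ 0 < Q ∧
      p * z.1 + p' * z.2 = s * P ^ 2 ∧ p * z.1 = p' * z.2 + s' * Q ^ 2 ∧
      q * z.1 + q' * z.2 = s3 * y ^ 2) := by
    intro z
    by_cases hz : z ∈ Z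
    · obtain ⟨k1, k2, _, k4, k5, k6⟩ := hZ z hz
      obtain ⟨s, P, s', Q, s3, y, h⟩ := cc_choose k1 hp' k2 k4 k5 k6
      exact ⟨s, P, s', Q, s3, y, fun _ => h⟩
    · exact ⟨0, 0, 0, 0, 0, 0, fun h => absurd h hz⟩
  choose s P s' Q s3 y hdat using hex
  set E : ℕ := j * N ^ j with hE
  have hQW : ∀ z ∈ Z, s' z * Q z ^ 2 ≤ W := by
    intro z hz
    obtain ⟨_, _, _, _, _, _, _, _, _, e2, _⟩ := hdat z hz
    have := (hZ z hz).2.2.1
    omega
  have hm : (((Z.image (fun z => (s z, s' z, s3 z, Q z))).card : ℕ) : ℝ) ≤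
      (S : ℝ) ^ 3 * Real.sqrt W := by
    have hsub : Z.image (fun z => (s z, s' z, s3 z, Q z)) ⊆
        (Icc 1 S) ×ˢ ((Icc 1 S) ×ˢ ((Icc 1 S) ×ˢ (Z.image Q))) := by
      intro b hb
      rw [mem_image] at hb
      obtain ⟨z, hz, rfl⟩ := hb
      obtain ⟨a1, a2, a3, a4, a5, a6, _⟩ := hdat z hz
      simp only [mem_product, mem_Icc]
      exact ⟨⟨a1, a2⟩, ⟨a3, a4⟩, ⟨a5, a6⟩, mem_image_of_mem _ hz⟩
    have hc := card_le_card hsub
    rw [card_product, card_product, card_product, Nat.card_Icc, Nat.add_sub_cancel] at hc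
    have hQc : ((Z.image Q).card : ℝ) ≤ Real.sqrt W := by
      apply card_sq_le
      intro b hb
      rw [mem_image] at hb
      obtain ⟨z, hz, rfl⟩ := hb
      obtain ⟨_, _, a3, _, _, _, _, a8, _⟩ := hdat z hz
      refine ⟨a8, le_trans ?_ (hQW z hz)⟩
      exact Nat.le_mul_of_pos_left _ a3
    calc (((Z.image (fun z => (s z, s' z, s3 z, Q z))).card : ℕ) : ℝ)
        ≤ ((S * (S * (S * (Z.image Q).card)) : ℕ) : ℝ) := by exact_mod_cast hc
      _ = (S : ℝ) ^ 3 * ((Z.image Q).card : ℝ) := by push_cast; ring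
      _ ≤ (S : ℝ) ^ 3 * Real.sqrt W := mul_le_mul_of_nonneg_left hQc (by positivity)
  have hn : (0 : ℝ) ≤ D * (N : ℝ) ^ ε := by positivity
  have hmain := fib_le Z (fun z => (s z, s' z, s3 z, Q z)) _ (D * (N : ℝ) ^ ε) hm hn ?_
  · calc (Z.card : ℝ) ≤ (S : ℝ) ^ 3 * Real.sqrt W * (D * (N : ℝ) ^ ε) := hmain
      _ = D * (N : ℝ) ^ ε * (S : ℝ) ^ 3 * Real.sqrt W := by ring
  · rintro ⟨b1, b2, b3, b4⟩ hb
    rw [mem_image] at hb
    obtain ⟨z0, hz0, hb0⟩ := hb
    simp only [Prod.mk.injEq] at hb0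
    obtain ⟨rfl, rfl, rfl, rfl⟩ := hb0
    obtain ⟨a1, a2, a3, a4, a5, a6, a7, a8, _⟩ := hdat z0 hz0
    have hW0 := hQW z0 hz0
    generalize s z0 = b1 at *
    generalize s' z0 = b2 at *
    generalize s3 z0 = b3 at *
    generalize Q z0 = b4 at *
    have hF : ∀ z ∈ Z.filter (fun x => (fun z => (s z, s' z, s3 z, Q z)) x = (b1, b2, b3, b4)),
        z ∈ Z ∧ s z = b1 ∧ s' z = b2 ∧ s3 z = b3 ∧ Q z = b4 := by
      intro z hz
      rw [mem_filter] at hz
      simp only [Prod.mk.injEq] at hz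
      exact hz
    apply card_le_of_inj _ P
    · intro z hz w hw hP
      obtain ⟨hzZ, z1, z2, z3, z4⟩ := hF z hz
      obtain ⟨hwZ, w1, w2, w3, w4⟩ := hF w hw
      obtain ⟨_, _, _, _, _, _, _, _, e1, e2, _⟩ := hdat z hzZ
      obtain ⟨_, _, _, _, _, _, _, _, f1, f2, _⟩ := hdat w hwZ
      rw [z1, hP] at e1
      rw [z2, z4] at e2
      rw [w1] at f1
      rw [w2, w4] at f2
      have g1 : p * z.1 = p * w.1 := by omega
      have g2 : p' * z.2 = p' * w.2 := by omega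
      exact Prod.ext (Nat.eq_of_mul_eq_mul_left hp g1) (Nat.eq_of_mul_eq_mul_left hp' g2)
    · -- the conic
      have hb3E : b3 ≤ E := le_trans a6 hSj
      have hb1E : b1 ≤ E := le_trans a2 hSj
      have hcE : b2 * b4 ^ 2 ≤ E := le_trans hW0 hWj
      have hnz : (q : ℤ) * p' - q' * p ≠ 0 := by
        intro h
        apply hne
        have : (q : ℤ) * p' = q' * p := by linarith
        exact_mod_cast this
      have hA0 : (0 : ℤ) < 2 * p * p' * b3 * b1 * (q * p' + q' * p) := by positivity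
      have hC0 : (2 : ℤ) * p * p' * b3 * (b2 * b4 ^ 2) * (q * p' - q' * p) ≠ 0 := by
        have : (0 : ℤ) < 2 * p * p' * b3 * (b2 * b4 ^ 2) := by positivity
        exact mul_ne_zero this.ne' hnz
      refine hD N hN (2 * p * p' * b3 * b1 * (q * p' + q' * p)) 0
        (2 * p * p' * b3 * (b2 * b4 ^ 2) * (q * p' - q' * p)) ?_ ?_ ?_ hA0.ne' ?_ _ ?_
      · rw [abs_of_pos hA0]
        have h1 : 2 * p * p' * b3 * b1 * (q * p' + q' * p) ≤ 4 * E ^ 6 := by
          calc 2 * p * p' * b3 * b1 * (q * p' + q' * p)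
              ≤ 2 * E * E * E * E * (E * E + E * E) := by gcongr
            _ = 4 * E ^ 6 := by ring
        exact_mod_cast le_trans h1 (cc_size j N hN)
      · simp only [abs_zero]
        positivity
      · have h1 : |(2 : ℤ) * p * p' * b3 * (b2 * b4 ^ 2) * (q * p' - q' * p)| =
            2 * p * p' * b3 * (b2 * b4 ^ 2) * |(q : ℤ) * p' - q' * p| := by
          rw [abs_mul, abs_of_pos (by positivity : (0 : ℤ) < 2 * p * p' * b3 * (b2 * b4 ^ 2))]
        have h2 : |(q : ℤ) * p' - q' * p| ≤ E * E := by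
          have u1 : q * p' ≤ E * E := Nat.mul_le_mul hqj hpj'
          have u2 : q' * p ≤ E * E := Nat.mul_le_mul hqj' hpj
          have u1' : (q : ℤ) * p' ≤ E * E := by exact_mod_cast u1
          have u2' : (q' : ℤ) * p ≤ E * E := by exact_mod_cast u2
          have u3 : (0 : ℤ) ≤ q * p' := by positivity
          have u4 : (0 : ℤ) ≤ q' * p := by positivity
          rw [abs_le]
          constructor <;> linarith
        have h3 : (2 : ℤ) * p * p' * b3 * (b2 * b4 ^ 2) ≤ 2 * E ^ 4 := by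
          have : 2 * p * p' * b3 * (b2 * b4 ^ 2) ≤ 2 * E ^ 4 := by
            calc 2 * p * p' * b3 * (b2 * b4 ^ 2) ≤ 2 * E * E * E * E := by gcongr
              _ = 2 * E ^ 4 := by ring
          exact_mod_cast this
        have h4 : (4 : ℤ) * E ^ 6 ≤ ((4 * j ^ 6 + 6 * j + 2 : ℕ) : ℤ) *
            (N : ℤ) ^ (4 * j ^ 6 + 6 * j + 2) := by exact_mod_cast cc_size j N hN
        rw [h1]
        calc (2 : ℤ) * p * p' * b3 * (b2 * b4 ^ 2) * |(q : ℤ) * p' - q' * p|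
            ≤ 2 * E ^ 4 * (E * E) := mul_le_mul h3 h2 (abs_nonneg _) (by positivity)
          _ ≤ 4 * (E : ℤ) ^ 6 := by
              have : (0 : ℤ) ≤ (E : ℤ) ^ 6 := by positivity
              nlinarith
          _ ≤ _ := h4
      · have : (0 : ℤ) ^ 2 - 4 * (2 * p * p' * b3 * b1 * (q * p' + q' * p)) *
            (2 * p * p' * b3 * (b2 * b4 ^ 2) * (q * p' - q' * p)) =
            -(4 * (2 * p * p' * b3 * b1 * (q * p' + q' * p)) *
            (2 * p * p' * b3 * (b2 * b4 ^ 2) * (q * p' - q' * p))) := by ring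
        rw [this]
        exact neg_ne_zero.2 (mul_ne_zero (mul_ne_zero (by norm_num) hA0.ne') hC0)
      · intro x hx
        rw [mem_image] at hx
        obtain ⟨z, hz, rfl⟩ := hx
        obtain ⟨hzZ, z1, z2, z3, z4⟩ := hF z hz
        obtain ⟨c1, _, _, _, _, _, c7, _, e1, e2, e3⟩ := hdat z hzZ
        have hzW := (hZ z hzZ).2.2.1
        have hzl := (hZ z hzZ).2.1
        constructor
        · have h1 : P z ≤ 2 * E := by
            have h2 : P z ≤ s z * P z ^ 2 := by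
              calc P z = 1 * (P z * 1) := by ring
                _ ≤ s z * (P z * P z) := Nat.mul_le_mul c1 (Nat.mul_le_mul le_rfl c7)
                _ = s z * P z ^ 2 := by ring
            omega
          exact le_trans h1 (cc_size2 j N hN)
        · rw [z1] at e1
          rw [z2, z4] at e2
          rw [z3] at e3
          have e1' : (p : ℤ) * z.1 + p' * z.2 = b1 * (P z : ℤ) ^ 2 := by exact_mod_cast e1
          have e2' : (p : ℤ) * z.1 = p' * z.2 + b2 * (b4 : ℤ) ^ 2 := by exact_mod_cast e2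
          have e3' : (q : ℤ) * z.1 + q' * z.2 = b3 * (y z : ℤ) ^ 2 := by exact_mod_cast e3
          refine ⟨2 * p * p' * b3 * y z, ?_⟩
          linear_combination (-(2 * (p : ℤ) * p' * b3 * (q * p' + q' * p))) * e1' +
            (-(2 * (p : ℤ) * p' * b3 * (q * p' - q' * p))) * e2' +
            (4 * (p : ℤ) ^ 2 * (p' : ℤ) ^ 2 * b3) * e3'

end Pool.Agent.Helper89.TT
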